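import Pool.Agent.U951.TR.Barnes
import Pool.Agent.N407.BZ.Mom
import Pool.Agent.Results.MP_047497_nt.AlmostAllWeights

/-!
# All moments of the Barnes multiple zeta function near `s(n)`, `n - φ(n)` and `α n + β f(n)`

Let `s(n)` be the sum of the proper divisors of `n`. For every `d ≥ 1` and almost every `v ∈ ℝ^d` the following holds for all
`r ≥ 2`, all positive weights `w` with `ℚ w₁ + ⋯ + ℚ w_r = ℚ v₁ + ⋯ + ℚ v_d` (so that the dimension is `d`) and all `a > 0`, `σ₁`,
`η, κ ≥ 0`. Let `G` have steps bounded below by a positive constant and growth at most `C v ^ D`, `D ≥ 1`, for example `G v = v`,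
`D = 1`, and let `e = D max (1 - 2 η, 0) + κ < 1`. For a set of `n` of lower density at least `1 - e` the bound
`∫_S^T |ζ_r(σ + it; a, w)|^{2k} dt ≤ (T - S) T^{2 k η}` holds for ALL
`k` and ALL `2 ≤ S ≤ T` within `s(n) ^ κ` of `G (s(n))`, uniformly in `σ ∈ [r - d/2, σ₁]`; and the same is true of
`n - φ(n)` in place of `s(n)`. More precisely this holds for almost all `n` with a divisor `≥ n ^ (e + ρ)` which is a prime or the
product of two different primes, and for the values `g = α n + β f(n)` of multiplicative functions with `f p = p + c` at the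
primes, uniformly in `|α|, |β| ≤ N ^ δ` and with a power saving in the number of the exceptional `n`. For `η ≥ 1/2`, `κ = 0` the
lower density is `1`.

The starting results treat windows and the values of multiplicative functions; here the values have no multiplicative structure
and a value may be taken by very many `n`, so that the number of the bad unit intervals (starting library
`Pool.Agent.N407.BZ`, used here) alone says nothing. Proof. Let `n = k v p` with large primes `p ≠ v`. Then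
`g = A v p + B (v + p) + B c`, `A = α k + β f(k)`, `B = β c f(k)`, and so `(A v + B) (A p + B) = A g + B² - A B c`: for given `g`,
`k`, `α`, `β` there are only `N^o(1)` possibilities for `p` and `v` (tool `Pool.Agent.U365.POW` of helper365).
-/

set_option autoImplicit false

namespace Pool.Agent.Results.MP_047497_nt.AliquotValues

open Pool.Agent.U365.POW (Values Dens values_mono dens_mono)
open Pool.Agent.N733.TG (Expanding)
open Pool.Agent.Results.MP_047497_nt.AlmostAllWeights (IsBarnesZeta weightDim exists_zeta span_of_matrix)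

/-- if `g ≥ 1`: `∫_S^T |Z(σ + it)|^{2k} dt ≤ (T - S) T^{2 k η}` for all `k`, all `σ ∈ [σ₀, σ₁]` and all `2 ≤ S ≤ T` with
`|S - G g| ≤ g ^ κ` and `|T - G g| ≤ g ^ κ` -/
def Near (Z : ℂ → ℂ) (σ₀ σ₁ η : ℝ) (G : ℕ → ℝ) (κ : ℝ) (g : ℕ) : Prop :=
  1 ≤ g → ∀ (k : ℕ) (σ S T : ℝ), σ₀ ≤ σ → σ ≤ σ₁ → 2 ≤ S → S ≤ T → |S - G g| ≤ (g : ℝ) ^ κ → |T - G g| ≤ (g : ℝ) ^ κ →
    ∫ t in S..T, ‖Z (σ + t * Complex.I)‖ ^ (2 * k) ≤ (T - S) * T ^ (2 * k * η)

/-- With `d` the dimension of the weights, for all `a > 0`, all `σ₁`, all `η, κ ≥ 0` and all `G` with steps `≥ a₀ > 0` and growth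
`≤ C v ^ D` with `e = D max (1 - 2 η, 0) + κ < 1`: the property `Near` of `ζ_r(·, a, w)` on `[r - d/2, σ₁]` holds for the values of
similar functions as the aliquot sum (`Values (e + ρ)` for all `ρ > 0`: for `s(n)`, for `n - φ(n)` and for all `α n + β f(n)`, for
almost all the `n` with a divisor `≥ n ^ (e + ρ)` which is a prime or the product of two different primes), and for `s(n)` and
`n - φ(n)` for a set of `n` of lower density at least `1 - e`. -/
def MomentsNearAliquot (r : ℕ) (w : Fin r → ℝ) : Prop :=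
  ∀ (a : ℝ) (Z : ℂ → ℂ), 0 < a → IsBarnesZeta r a w Z → ∀ σ₁ η κ : ℝ, 0 ≤ η → 0 ≤ κ → ∀ (G : ℕ → ℝ) (D : ℝ), Expanding G D →
    D * max (1 - 2 * η) 0 + κ < 1 →
      (∀ ρ : ℝ, 0 < ρ → Values (D * max (1 - 2 * η) 0 + κ + ρ) (Near Z ((r : ℝ) - (weightDim r w : ℝ) / 2) σ₁ η G κ)) ∧
        Dens (1 - (D * max (1 - 2 * η) 0 + κ)) (Near Z ((r : ℝ) - (weightDim r w : ℝ) / 2) σ₁ η G κ)

theorem zeta_eq {r : ℕ} {a : ℝ} {w : Fin r → ℝ} {c : ℕ → ℂ} (ha : 0 < a) (hw : ∀ i, 0 < w i)
    (hc : Pool.Agent.Y930.Bz.Tay a w c) {Z : ℂ → ℂ} (hZ : IsBarnesZeta r a w Z) (σ : ℝ) {t : ℝ}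
    (ht : 0 < t) : Z ((σ : ℂ) + t * Complex.I) =
      Pool.Agent.H131R5.BZ.FF a w c ((σ : ℂ) + t * Complex.I) := by
  have hE := Pool.Agent.Y930.Bz.eq_FF ha hw hc (fun s hs => hZ.holomorphic s hs)
    (fun s hs => hZ.series s hs)
  have hm : ((σ : ℂ) + t * Complex.I) ∈ Pool.Agent.Y930.Bz.Om r := by
    intro k _ _ h
    have := congrArg Complex.im h
    simp at this
    linarith
  exact hE _ hm

theorem weightDim_eq {d : ℕ} {v : Fin d → ℝ} (hv : LinearIndependent ℚ v) {r : ℕ} {w : Fin r → ℝ}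
    (hspan : Submodule.span ℚ (Set.range w) = Submodule.span ℚ (Set.range v)) :
    weightDim r w = d := by
  unfold weightDim
  rw [hspan, finrank_span_eq_card hv]
  simp

theorem near_of_good {d : ℕ} {v : Fin d → ℝ} (hv : LinearIndependent ℚ v)
    (hG : Pool.Agent.Y616.BM.Good v) {r : ℕ} (hr : 2 ≤ r) {w : Fin r → ℝ} (hw : ∀ i, 0 < w i)
    (hspan : Submodule.span ℚ (Set.range w) = Submodule.span ℚ (Set.range v)) : MomentsNearAliquot r w := by
  intro a Z ha hZ σ₁ η κ hη hκ G D hGe h1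
  rw [weightDim_eq hv hspan]
  obtain ⟨c, hc⟩ := Pool.Agent.H131R5.BZ.exists_taylor a hw
  obtain ⟨k1, k2⟩ := Pool.Agent.U951.TR.Barnes.aliquot hv hG hr ha hw hspan hc σ₁ hη hκ hGe h1
  have hm : ∀ g : ℕ, (1 ≤ g → ∀ t σ : ℝ, 2 ≤ t → |t - G g| ≤ (g : ℝ) ^ κ → (r : ℝ) - d / 2 ≤ σ → σ ≤ σ₁ →
      ‖Pool.Agent.H131R5.BZ.FF a w c ((σ : ℂ) + t * Complex.I)‖ ≤ t ^ η) → Near Z ((r : ℝ) - d / 2) σ₁ η G κ g := by
    intro g hg hg1 k σ S T g1 g2 g3 g4 g5 g6
    refine Pool.Agent.N407.BZ.moment_le g3 g4 hη (fun t ht1 ht2 => ?_) k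
    rw [zeta_eq ha hw hc hZ σ (by linarith)]
    refine hg hg1 t σ (by linarith) ?_ g1 g2
    rw [abs_le] at g5 g6 ⊢
    constructor <;> linarith [g5.1, g6.2]
  exact ⟨fun ρ hρ => values_mono (k1 ρ hρ) hm, dens_mono k2 le_rfl hm⟩

/-- (1) The Barnes multiple zeta function exists (as defined in `AlmostAllWeights`) for all `r`, `a > 0` and positive weights `w`.
(2) For every `d` and almost every `v ∈ ℝ^d`: all positive weights `w`, in any number `r ≥ 2`, which span the same `ℚ`-space as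
`v` have dimension `d` and satisfy `MomentsNearAliquot`. (3) For `2 ≤ r` and every rational `r × d` matrix `B` of rank `d`, for
almost every `v ∈ ℝ^d` this holds for the weights `w = B v`, if they are positive. (4) Almost all positive `w ∈ ℝ^r`, `r ≥ 2`,
have dimension `r` and satisfy `MomentsNearAliquot`. -/
theorem result :
    (∀ (r : ℕ) (a : ℝ) (w : Fin r → ℝ), 0 < a → (∀ i, 0 < w i) →
      ∃ Z : ℂ → ℂ, IsBarnesZeta r a w Z) ∧
    (∀ d : ℕ, ∀ᵐ v : Fin d → ℝ, LinearIndependent ℚ v ∧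
      ∀ (r : ℕ) (w : Fin r → ℝ), 2 ≤ r → (∀ i, 0 < w i) →
        Submodule.span ℚ (Set.range w) = Submodule.span ℚ (Set.range v) →
        weightDim r w = d ∧ MomentsNearAliquot r w) ∧
    (∀ r d : ℕ, 2 ≤ r → ∀ B : Matrix (Fin r) (Fin d) ℚ, Function.Injective B.mulVec →
      ∀ᵐ v : Fin d → ℝ, (∀ i, 0 < (B.map (fun q : ℚ => (q : ℝ))).mulVec v i) →
        weightDim r ((B.map (fun q : ℚ => (q : ℝ))).mulVec v) = d ∧
          MomentsNearAliquot r ((B.map (fun q : ℚ => (q : ℝ))).mulVec v)) ∧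
    (∀ r : ℕ, 2 ≤ r → ∀ᵐ w : Fin r → ℝ, (∀ i, 0 < w i) →
      weightDim r w = r ∧ MomentsNearAliquot r w) := by
  refine ⟨exists_zeta, fun d => ?_, fun r d hr B hB => ?_, fun r hr => ?_⟩
  · filter_upwards [Pool.Agent.Y616.BM.ae_good d, Pool.Agent.Y616.BM.ae_indep d] with v hG hv
    exact ⟨hv, fun r w hr hw hspan => ⟨weightDim_eq hv hspan, near_of_good hv hG hr hw hspan⟩⟩
  · filter_upwards [Pool.Agent.Y616.BM.ae_good d, Pool.Agent.Y616.BM.ae_indep d] with v hG hv hw
    have hspan := span_of_matrix B hB v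
    exact ⟨weightDim_eq hv hspan, near_of_good hv hG hr hw hspan⟩
  · filter_upwards [Pool.Agent.Y616.BM.ae_good r, Pool.Agent.Y616.BM.ae_indep r] with v hG hv hw
    exact ⟨weightDim_eq hv rfl, near_of_good hv hG hr hw rfl⟩

end Pool.Agent.Results.MP_047497_nt.AliquotValues
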