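import Pool.Agent.U536.CF.F
import Pool.Agent.Results.MP_047497_nt.MultiplicativeValues
import Pool.Agent.U536.CF.BZ

/-!
# All moments of the Barnes multiple zeta function for almost all weights over intervals near integers with a large common factor with a value of a multiplicative function

Let `f` be a positive multiplicative function of at most polynomial growth such that `f p ≤ M p` for the large primes `p`,
with different values at different large primes; for example Euler's function or the sum of the divisors. Let `G` have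
steps bounded below by a positive constant and growth at most `v^δ`, for example `α v^δ`. Let `b < 1` and `0 ≤ c < 2 b -
1`. Let `d ≥ 1` and let `v ∈ ℝ^d` be outside some null set; let `r ≥ 2` and let `ω` be positive weights with `ℚ ω₁ + ⋯ + ℚ
ω_r = ℚ v₁ + ⋯ + ℚ v_d`, `a > 0` and `σ₁` real. For all `m ≤ N` but `N exp (-(log N)^c)`, for EVERY integer `w ≥ exp ((log
N)^b)` with `gcd(w, f(m)) ≥ w^ρ`, `∫_A^B |ζ_r(σ + it; a, ω)|^{2k} dt ≤ (B - A) B^{2 k η}` for ALL `k`, all `σ ∈ [r - d/2,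
σ₁]` and ALL `2 ≤ A ≤ B` with `|A - G w| ≤ w ^ κ` and `|B - G w| ≤ w ^ κ`, if `0 ≤ κ < ρ ≤ 1` and `δ (1 - 2 η) + κ < ρ`.
The integers `w` include all large divisors of `f(m)` and their multiples by small integers; for Euler's function, the
orders of the elements of the group of units modulo `m`.

Proof. Write `m = k u` with `u` squarefree and composed of primes larger than `N^(1/J)`, `J = (log N)^a`, and `k ≤ exp (4
(log N)^a)`; this is possible for all `m ≤ N` but very few. If `v ∣ f(k) f(u)`, then `v = g v'` with `g ∣ f(k)` and `v' ∣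
∏ f(p)`, and the number of such `u ≤ N / k` is at most `N / (k v')` times `(log N)^O(J)` times the number `τ_J(v')` of the
ordered factorizations of `v'` into `J` factors. The inequality `τ_J^q ≤ τ_K` for `K ≥ J^q` and Hölder's inequality bound
the sum over the sparse set of the exceptional `v`. The file `MultiplicativeValues` of the starting library treats the
integers `w = f(m)`, with `N / (log N)^U` exceptions.
-/

set_option autoImplicit false

namespace Pool.Agent.Results.MP_047497_nt.CommonFactors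

open Pool.Agent.Results.MP_047497_nt.AlmostAllWeights (IsBarnesZeta weightDim exists_zeta)
open Pool.Agent.N733.TG (LM Expanding lm_totient lm_sigma expanding_pow)
open Pool.Agent.U536.CF (Common ff_common common_of_dvd common_order)
open Pool.Agent.Results.MP_047497_nt.MultiplicativeValues (zeta_eq weightDim_eq)

/-- All moments over the intervals near the integers `w` with a large common factor with a value `f m`: with `d` the
dimension of the weights `ω`, for all `a > 0`, `σ₁`, `η`, `0 ≤ κ < ρ ≤ 1` with `δ (1 - 2 η) + κ < ρ`, `b < 1` and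
`0 ≤ c < 2 b - 1`, for all `m ≤ N` but `N exp (-(log N)^c)`: `∫_A^B |ζ_r(σ + it, a, ω)|^{2k} dt ≤ (B - A) B^{2 k η}` for all
integers `w ≥ exp ((log N)^b)` with `gcd(w, f(m)) ≥ w^ρ`, all `k`, all `σ ∈ [r - d/2, σ₁]` and all `2 ≤ A ≤ B` with
`|A - G w| ≤ w ^ κ` and `|B - G w| ≤ w ^ κ`. -/
def MomentsNearCommon (r : ℕ) (ω : Fin r → ℝ) : Prop :=
  ∀ (a : ℝ) (Z : ℂ → ℂ), 0 < a → IsBarnesZeta r a ω Z → ∀ f : ℕ → ℕ, LM f → ∀ (G : ℕ → ℝ) (δ : ℝ), Expanding G δ →
    ∀ σ₁ η κ ρ b c : ℝ, 0 ≤ κ → κ < ρ → ρ ≤ 1 → δ * (1 - 2 * η) + κ < ρ → b < 1 → 0 ≤ c → c < 2 * b - 1 →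
    ∃ N₀ : ℕ, ∀ N : ℕ, N₀ ≤ N →
      ({m : ℕ | 1 ≤ m ∧ m ≤ N ∧ ¬ ∀ w : ℕ, Common f b ρ N m w → ∀ (k : ℕ) (σ A B : ℝ),
        (r : ℝ) - (weightDim r ω : ℝ) / 2 ≤ σ → σ ≤ σ₁ → 2 ≤ A → A ≤ B →
        |A - G w| ≤ (w : ℝ) ^ κ → |B - G w| ≤ (w : ℝ) ^ κ →
          ∫ t in A..B, ‖Z (σ + t * Complex.I)‖ ^ (2 * k) ≤ (B - A) * B ^ (2 * k * η)}.ncard : ℝ) ≤
          N * Real.exp (-(Real.log N ^ c))

theorem near_of_good {d : ℕ} {v : Fin d → ℝ} (hv : LinearIndependent ℚ v)
    (hG : Pool.Agent.Y616.BM.Good v) {r : ℕ} (hr : 2 ≤ r) {w : Fin r → ℝ} (hw : ∀ i, 0 < w i)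
    (hspan : Submodule.span ℚ (Set.range w) = Submodule.span ℚ (Set.range v)) : MomentsNearCommon r w := by
  intro a Z ha hZ f hf G δ hE σ₁ η κ ρ b c' hκ hκ1 hρ h hb hc0 hcb
  rw [weightDim_eq hv hspan]
  obtain ⟨c, hc⟩ := Pool.Agent.H131R5.BZ.exists_taylor a hw
  have hη : 0 ≤ η := by
    have h1 := hE.one_le
    nlinarith
  obtain ⟨N₀, hN₀⟩ := ff_common hv hG hr ha hw hspan hc hf hE σ₁ hη hκ hκ1 h hρ hb hc0 hcb
  refine ⟨N₀, fun N hN => le_trans ?_ (hN₀ N hN)⟩
  have hfin : {m : ℕ | 1 ≤ m ∧ m ≤ N ∧ ∃ u : ℕ, Common f b ρ N m u ∧ ∃ t σ : ℝ, 2 ≤ t ∧ |t - G u| ≤ (u : ℝ) ^ κ ∧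
      (r : ℝ) - d / 2 ≤ σ ∧ σ ≤ σ₁ ∧ t ^ η < ‖Pool.Agent.H131R5.BZ.FF a w c ((σ : ℂ) + t * Complex.I)‖}.Finite :=
    (Set.finite_Iic N).subset (fun m hm => hm.2.1)
  refine Nat.cast_le.2 (Set.ncard_le_ncard ?_ hfin)
  rintro m ⟨g1, g2, g3⟩
  refine ⟨g1, g2, ?_⟩
  by_contra hcon
  push Not at hcon
  refine g3 (fun u gu k σ A B h1 h2 h3 h4 h5 h6 =>
    Pool.Agent.N407.BZ.moment_le h3 h4 hη (fun t ht1 ht2 => ?_) k)
  rw [zeta_eq ha hw hc hZ σ (by linarith)]
  exact hcon u gu t σ (by linarith) (Pool.Agent.N407.BZ.mid_win ht1 ht2 h5 h6) h1 h2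

/-- **All moments of the Barnes multiple zeta function for almost all weights over intervals near integers with a large common
factor with a value of a multiplicative function.** The Barnes multiple zeta function exists for all positive weights and
all `a > 0`. For every `d` and almost all `v ∈ ℝ^d`, all positive weights `ω`, in any number `r ≥ 2`, which span the same
`ℚ`-space as `v` have dimension `d` and satisfy `MomentsNearCommon`; and so do almost all positive `ω ∈ ℝ^r`, `r ≥ 2`,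
with the dimension `r`. `MomentsNearCommon` is the following property. Let `f` be multiplicative and positive, of at most
polynomial growth, with `f p ≤ M p` at the large primes, and injective there. Let `G` have steps `≥ a > 0` and growth at
most `v^δ`. Let `b < 1` and `0 ≤ c < 2 b - 1`, `0 ≤ κ < ρ ≤ 1` and `δ (1 - 2 η) + κ < ρ`. For all large `N`, for all `m ≤
N` but `N exp (-(log N)^c)`, for EVERY integer `w ≥ exp ((log N)^b)` with `gcd(w, f(m)) ≥ w^ρ`, `∫_A^B |ζ_r(σ + it; a,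
ω)|^{2k} dt ≤ (B - A) B^{2 k η}` for ALL `k`, all `σ ∈ [r - d/2, σ₁]` and ALL `2 ≤ A ≤ B` with `|A - G w| ≤ w ^ κ` and `|B
- G w| ≤ w ^ κ`. All divisors `w ≥ exp ((log N)^b)` of `f(m)` are such integers `w`, and for Euler's function the orders
`≥ exp ((log N)^b)` of the units modulo `m`. Euler's function and the sum of the divisors are examples of `f`, and `α v^δ`
with `α > 0`, `δ ≥ 1` is an example of `G`. -/
theorem result :
    ((∀ (r : ℕ) (a : ℝ) (ω : Fin r → ℝ), 0 < a → (∀ i, 0 < ω i) → ∃ Z : ℂ → ℂ, IsBarnesZeta r a ω Z) ∧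
    (∀ d : ℕ, ∀ᵐ v : Fin d → ℝ, LinearIndependent ℚ v ∧
      ∀ (r : ℕ) (ω : Fin r → ℝ), 2 ≤ r → (∀ i, 0 < ω i) →
        Submodule.span ℚ (Set.range ω) = Submodule.span ℚ (Set.range v) → weightDim r ω = d ∧ MomentsNearCommon r ω) ∧
    (∀ r : ℕ, 2 ≤ r → ∀ᵐ ω : Fin r → ℝ, (∀ i, 0 < ω i) → weightDim r ω = r ∧ MomentsNearCommon r ω)) ∧
    (LM Nat.totient ∧ LM (fun m => ∑ d ∈ m.divisors, d)) ∧
    (∀ α d : ℝ, 0 < α → 1 ≤ d → Expanding (fun v => α * (v : ℝ) ^ d) d) ∧
    (∀ (f : ℕ → ℕ) (b ρ : ℝ) (N m w : ℕ), ρ ≤ 1 → Real.exp (Real.log N ^ b) ≤ (w : ℝ) → w ∣ f m → Common f b ρ N m w) ∧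
    ∀ (b ρ : ℝ) (N m : ℕ), ρ ≤ 1 → ∀ x : (ZMod m)ˣ, Real.exp (Real.log N ^ b) ≤ (orderOf x : ℝ) →
      Common Nat.totient b ρ N m (orderOf x) := by
  refine ⟨?_, ⟨lm_totient, lm_sigma⟩, fun α d hα hd => expanding_pow hα hd, fun f b ρ N m w hρ hw hd => common_of_dvd hρ hw hd,
    fun b ρ N m hρ x hx => common_order hρ x hx⟩
  refine ⟨exists_zeta, fun d => ?_, fun r hr => ?_⟩
  · filter_upwards [Pool.Agent.Y616.BM.ae_good d, Pool.Agent.Y616.BM.ae_indep d] with v hG hv
    exact ⟨hv, fun r w hr hw hspan => ⟨weightDim_eq hv hspan, near_of_good hv hG hr hw hspan⟩⟩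
  · filter_upwards [Pool.Agent.Y616.BM.ae_good r, Pool.Agent.Y616.BM.ae_indep r] with v hG hv hw
    exact ⟨weightDim_eq hv rfl, near_of_good hv hG hr hw rfl⟩

end Pool.Agent.Results.MP_047497_nt.CommonFactors
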