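import Pool.Agent.U536.DS.BZ
import Pool.Agent.Results.MP_047497_nt.MultiplicativeValues

/-!
# All moments of the Barnes multiple zeta function for almost all weights over intervals near the integral combinations of
two divisors of a value of a multiplicative function

Let `f` be a positive multiplicative function of at most polynomial growth such that `f p ≤ M p` for the large primes `p`,
with different values at different large primes; for example Euler's function or the sum of the divisors. Let `G` have steps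
bounded below by a positive constant and growth at most `v^δ`, for example `α v^δ`. Let `b < 1` and `0 ≤ c < 2 b - 1`. Let
`d ≥ 1` and let `v ∈ ℝ^d` be outside some null set; let `r ≥ 2` and let `ω` be positive weights with `ℚ ω₁ + ⋯ + ℚ ω_r = ℚ
v₁ + ⋯ + ℚ v_d`, `a > 0` and `σ₁` real. For all `m ≤ N` but `N exp (-(log N)^c)`, for EVERY integer `w ≥ exp ((log N)^b)` of
the form `w = u e + v' e'` with divisors `e`, `e'` of `f(m)` and integers `|u|, |v'| ≤ exp ((log N)^θ)`, `∫_A^B |ζ_r(σ + it;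
a, ω)|^{2k} dt ≤ (B - A) B^{2 k η}` for ALL `k`, all `σ ∈ [r - d/2, σ₁]` and ALL `2 ≤ A ≤ B` with `|A - G w| ≤ w ^ κ` and
`|B - G w| ≤ w ^ κ`, if `0 ≤ κ < 1`, `θ < b` and `δ (1 - 2 η) + κ < 1`. The integers `w` include all large divisors of
`f(m)` and the large sums and differences of ANY two divisors of `f(m)`; for Euler's function, those of the orders of any
two units modulo `m`.

Proof. Write `m = k u` with `u` squarefree and composed of primes larger than `N^(1/J)`, `J = (log N)^a`, and `k ≤ exp (4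
(log N)^a)`; this is possible for all `m ≤ N` but very few. If `v ∣ f(k) f(u)`, then `v = g v'` with `g ∣ f(k)` and `v' ∣ ∏
f(p)`, and the number of such `u ≤ N / k` is at most `N / (k v')` times `(log N)^O(J)` times the number `τ_J(v')` of the
ordered factorizations of `v'` into `J` factors. Take for `v` the least common multiple of `s` and `t`: the sum of `1 / [s,
t]` over the pairs `s, t ≤ X` with `u s + v t = w` is at most `4 U (1 + log X) τ(w) / w` if `|u|, |v| ≤ U`; the inequality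
`τ_J^q ≤ τ_K` for `K ≥ J^q` and Hölder's inequality bound the sum over the pairs with exceptional `w`. The integers of the
hand-in `CommonFactors` of this page have a large common factor with `f(m)`; the sums and differences of two divisors of
`f(m)` have in general none. The file `MultiplicativeValues` of the starting library treats the integers `w = f(m)` only,
with `N / (log N)^U` exceptions.
-/

set_option autoImplicit false

namespace Pool.Agent.Results.MP_047497_nt.DivisorSums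

open Pool.Agent.Results.MP_047497_nt.AlmostAllWeights (IsBarnesZeta weightDim exists_zeta)
open Pool.Agent.N733.TG (LM Expanding lm_totient lm_sigma expanding_pow)
open Pool.Agent.U536.DS (Comb ff_comb comb_pm comb_orders)
open Pool.Agent.Results.MP_047497_nt.MultiplicativeValues (zeta_eq weightDim_eq)

/-- All moments over the intervals near the integral combinations `w` of two divisors of a value `f m`: with `d` the dimension
of the weights `ω`, for all `a > 0`, `σ₁`, `η`, `0 ≤ κ < 1`, `θ < b` with `δ (1 - 2 η) + κ < 1`, `b < 1` and `0 ≤ c < 2 b -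
1`, for all `m ≤ N` but `N exp (-(log N)^c)`: `∫_A^B |ζ_r(σ + it, a, ω)|^{2k} dt ≤ (B - A) B^{2 k η}` for all integers `w ≥
exp ((log N)^b)` of the form `w = u e + v' e'` with divisors `e`, `e'` of `f(m)` and integers `|u|, |v'| ≤ exp ((log N)^θ)`,
all `k`, all `σ ∈ [r - d/2, σ₁]` and all `2 ≤ A ≤ B` with `|A - G w| ≤ w ^ κ` and `|B - G w| ≤ w ^ κ`. -/
def MomentsNearComb (r : ℕ) (ω : Fin r → ℝ) : Prop :=
  ∀ (a : ℝ) (Z : ℂ → ℂ), 0 < a → IsBarnesZeta r a ω Z → ∀ f : ℕ → ℕ, LM f → ∀ (G : ℕ → ℝ) (δ : ℝ), Expanding G δ →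
    ∀ σ₁ η κ θ b c : ℝ, 0 ≤ κ → κ < 1 → δ * (1 - 2 * η) + κ < 1 → θ < b → b < 1 → 0 ≤ c → c < 2 * b - 1 →
    ∃ N₀ : ℕ, ∀ N : ℕ, N₀ ≤ N →
      ({m : ℕ | 1 ≤ m ∧ m ≤ N ∧ ¬ ∀ w : ℕ, Comb f b θ N m w → ∀ (k : ℕ) (σ A B : ℝ),
        (r : ℝ) - (weightDim r ω : ℝ) / 2 ≤ σ → σ ≤ σ₁ → 2 ≤ A → A ≤ B →
        |A - G w| ≤ (w : ℝ) ^ κ → |B - G w| ≤ (w : ℝ) ^ κ →
          ∫ t in A..B, ‖Z (σ + t * Complex.I)‖ ^ (2 * k) ≤ (B - A) * B ^ (2 * k * η)}.ncard : ℝ) ≤
          N * Real.exp (-(Real.log N ^ c))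

theorem near_of_good {d : ℕ} {v : Fin d → ℝ} (hv : LinearIndependent ℚ v)
    (hG : Pool.Agent.Y616.BM.Good v) {r : ℕ} (hr : 2 ≤ r) {w : Fin r → ℝ} (hw : ∀ i, 0 < w i)
    (hspan : Submodule.span ℚ (Set.range w) = Submodule.span ℚ (Set.range v)) : MomentsNearComb r w := by
  intro a Z ha hZ f hf G δ hE σ₁ η κ θ b c' hκ hκ1 h hθ hb hc0 hcb
  rw [weightDim_eq hv hspan]
  obtain ⟨c, hc⟩ := Pool.Agent.H131R5.BZ.exists_taylor a hw
  have hη : 0 ≤ η := by
    have h1 := hE.one_le
    nlinarith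
  obtain ⟨N₀, hN₀⟩ := ff_comb hv hG hr ha hw hspan hc hf hE σ₁ hη hκ hκ1 h hθ hb hc0 hcb
  refine ⟨N₀, fun N hN => le_trans ?_ (hN₀ N hN)⟩
  have hfin : {m : ℕ | 1 ≤ m ∧ m ≤ N ∧ ∃ u : ℕ, Comb f b θ N m u ∧ ∃ t σ : ℝ, 2 ≤ t ∧ |t - G u| ≤ (u : ℝ) ^ κ ∧
      (r : ℝ) - d / 2 ≤ σ ∧ σ ≤ σ₁ ∧ t ^ η < ‖Pool.Agent.H131R5.BZ.FF a w c ((σ : ℂ) + t * Complex.I)‖}.Finite :=
    (Set.finite_Iic N).subset (fun m hm => hm.2.1)
  refine Nat.cast_le.2 (Set.ncard_le_ncard ?_ hfin)
  rintro m ⟨g1, g2, g3⟩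
  refine ⟨g1, g2, ?_⟩
  by_contra hcon
  push Not at hcon
  refine g3 (fun u gu k σ A B h1 h2 h3 h4 h5 h6 =>
    Pool.Agent.N407.BZ.moment_le h3 h4 hη (fun t ht1 ht2 => ?_) k)
  rw [zeta_eq ha hw hc hZ σ (by linarith)]
  exact hcon u gu t σ (by linarith) (Pool.Agent.N407.BZ.mid_win ht1 ht2 h5 h6) h1 h2

/-- **All moments of the Barnes multiple zeta function for almost all weights over intervals near the integral combinations of
two divisors of a value of a multiplicative function.** The Barnes multiple zeta function exists for all positive weights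
and all `a > 0`. For every `d` and almost all `v ∈ ℝ^d`, all positive weights `ω`, in any number `r ≥ 2`, which span the
same `ℚ`-space as `v` have dimension `d` and satisfy `MomentsNearComb`; and so do almost all positive `ω ∈ ℝ^r`, `r ≥ 2`,
with the dimension `r`. `MomentsNearComb` is the following property. Let `f` be multiplicative and positive, of at most
polynomial growth, with `f p ≤ M p` at the large primes, and injective there. Let `G` have steps `≥ a > 0` and growth at
most `v^δ`. Let `b < 1` and `0 ≤ c < 2 b - 1`, `0 ≤ κ < 1`, `θ < b` and `δ (1 - 2 η) + κ < 1`. For all large `N`, for all `m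
≤ N` but `N exp (-(log N)^c)`, for EVERY integer `w ≥ exp ((log N)^b)` of the form `w = u e + v' e'` with divisors `e`, `e'`
of `f(m)` and integers `|u|, |v'| ≤ exp ((log N)^θ)`, `∫_A^B |ζ_r(σ + it; a, ω)|^{2k} dt ≤ (B - A) B^{2 k η}` for ALL `k`,
all `σ ∈ [r - d/2, σ₁]` and ALL `2 ≤ A ≤ B` with `|A - G w| ≤ w ^ κ` and `|B - G w| ≤ w ^ κ`. All the sums and differences
`≥ exp ((log N)^b)` of two divisors of `f(m)` are such integers `w`, and for Euler's function those of the orders of two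
units modulo `m`. Euler's function and the sum of the divisors are examples of `f`, and `α v^δ` with `α > 0`, `δ ≥ 1` is an
example of `G`. -/
theorem result :
    ((∀ (r : ℕ) (a : ℝ) (ω : Fin r → ℝ), 0 < a → (∀ i, 0 < ω i) → ∃ Z : ℂ → ℂ, IsBarnesZeta r a ω Z) ∧
    (∀ d : ℕ, ∀ᵐ v : Fin d → ℝ, LinearIndependent ℚ v ∧
      ∀ (r : ℕ) (ω : Fin r → ℝ), 2 ≤ r → (∀ i, 0 < ω i) →
        Submodule.span ℚ (Set.range ω) = Submodule.span ℚ (Set.range v) → weightDim r ω = d ∧ MomentsNearComb r ω) ∧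
    (∀ r : ℕ, 2 ≤ r → ∀ᵐ ω : Fin r → ℝ, (∀ i, 0 < ω i) → weightDim r ω = r ∧ MomentsNearComb r ω)) ∧
    (LM Nat.totient ∧ LM (fun m => ∑ d ∈ m.divisors, d)) ∧
    (∀ α d : ℝ, 0 < α → 1 ≤ d → Expanding (fun v => α * (v : ℝ) ^ d) d) ∧
    (∀ (f : ℕ → ℕ) (b θ : ℝ) (N m s t : ℕ), s ∣ f m → t ∣ f m →
      (Real.exp (Real.log N ^ b) ≤ ((s + t : ℕ) : ℝ) → Comb f b θ N m (s + t)) ∧
      (Real.exp (Real.log N ^ b) ≤ ((s - t : ℕ) : ℝ) → Comb f b θ N m (s - t)) ∧
      (Real.exp (Real.log N ^ b) ≤ (s : ℝ) → Comb f b θ N m s)) ∧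
    ∀ (b θ : ℝ) (N m : ℕ) (x y : (ZMod m)ˣ),
      (Real.exp (Real.log N ^ b) ≤ ((orderOf x + orderOf y : ℕ) : ℝ) → Comb Nat.totient b θ N m (orderOf x + orderOf y)) ∧
      (Real.exp (Real.log N ^ b) ≤ ((orderOf x - orderOf y : ℕ) : ℝ) → Comb Nat.totient b θ N m (orderOf x - orderOf y)) := by
  refine ⟨?_, ⟨lm_totient, lm_sigma⟩, fun α d hα hd => expanding_pow hα hd, fun f b θ N m s t hs ht => comb_pm hs ht,
    fun b θ N m x y => comb_orders x y⟩
  refine ⟨exists_zeta, fun d => ?_, fun r hr => ?_⟩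
  · filter_upwards [Pool.Agent.Y616.BM.ae_good d, Pool.Agent.Y616.BM.ae_indep d] with v hG hv
    exact ⟨hv, fun r w hr hw hspan => ⟨weightDim_eq hv hspan, near_of_good hv hG hr hw hspan⟩⟩
  · filter_upwards [Pool.Agent.Y616.BM.ae_good r, Pool.Agent.Y616.BM.ae_indep r] with v hG hv hw
    exact ⟨weightDim_eq hv rfl, near_of_good hv hG hr hw rfl⟩

end Pool.Agent.Results.MP_047497_nt.DivisorSums
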